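import Pool.Agent.H14.AVS.S1

set_option autoImplicit false

namespace Pool.AVS

open Polynomial Matrix Pool.AVR

theorem dbl_thm : DBLStmt := by
  intro K _ h2 B l ν μ hB hl
  have e : ∀ i j, B i j = ν * (l i * l j) + μ * AA K i j := by
    intro i j
    rw [hl]
    simp [Matrix.add_apply, Matrix.smul_apply]
  have hia : ia B = -(3 * μ + ν * (2 * l 0 * l 2 + l 1 ^ 2)) := by
    unfold ia
    rw [e, e]
    simp [AA]
    ring
  have hib : ib B = 3 * μ ^ 2 + 2 * μ * (ν * (2 * l 0 * l 2 + l 1 ^ 2)) := by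
    unfold ib
    simp only [e]
    simp [AA]
    ring
  have hic : ic B = -(μ ^ 2 * (μ + ν * (2 * l 0 * l 2 + l 1 ^ 2))) := by
    unfold ic
    rw [Matrix.det_fin_three]
    simp only [e]
    simp [AA]
    ring
  unfold dB
  rw [hia, hib, hic]
  unfold disc
  ring

end Pool.AVS
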